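import Pool.Agent.KS6_46.Sp.Main
import Pool.Agent.KS6_46.Sp.Tukey
import Pool.Agent.KS6_46.Sp.Triv

/-!
# Every positive integer is consistently the size of the high Tukey spectrum

For every `n ≥ 1` some forcing with the countable chain condition forces that the high spectrum
of Tukey types of ultrafilters on `ℕ` has exactly `n` elements.

Let `κ 0 = 𝔠` and `κ (i + 1)` be the successor of `κ i`. The forcing is a finite support iteration
of length `κ 1` after adding `κ n` Cohen reals, which are split into families of sizes
`κ 1, ..., κ n`. For the part number `i` the maps `k ↦ (A ξ k)` send the natural numbers to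
`2 ^ (κ i)`. Each stage `α` fixes for each `i` a maximal filter `𝔉` of sets of natural numbers
which are everywhere dense with respect to this map, and a maximal filter `𝔘` of open subsets of
`2 ^ (κ i)` with the point `1` in the closure of each member; it adds a generic pseudo-intersection
`g` of `𝔉` and, for each countable part `e` of the index set, a generic open set which is almost
contained in all members of `𝔘` with support `e`. The sets `B` obtained from `g`, the open sets
and finitely many `A ξ` generate an ultrafilter, and each of them is contained in finitely many
`A ξ` only; so it is Tukey equivalent to the finite subsets of `κ i`. The Cohen reals added at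
all stages split all small families of sets, which excludes all other cardinals.

`PhiFor n Y` is the combinatorial statement satisfied by the extension, for the sets
`Y i = κ i` of the ground model, and `PhiHolds P n Y` is its translation into the forcing language
(see `Pool.Agent.Helper669.Forcing` for the connectives).
-/

set_option autoImplicit false

namespace Pool.Agent.Results.MP_0e7365_lc.FiniteSpectrum

open Cardinal Pool.Agent.Helper669.Forcing Pool.Agent.KS6_46.Sp

/-- Let `n ≥ 1`. (1) There are linearly ordered sets `Y i` and a preordered set `P` of forcing
conditions all of which force that all cardinals are preserved and that `PhiFor n Y` holds.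
(2) `PhiFor n Y` implies that the high spectrum has exactly `n` elements. (3) For the trivial
forcing `PhiHolds` is the plain statement `PhiFor`. -/
theorem result (n : ℕ) (hn : 1 ≤ n) :
    (∃ (Y : ℕ → Type) (_ : ∀ i, LinearOrder (Y i)) (P : Type) (_ : Preorder P), Nonempty P ∧
      ∀ p : P, p ∈ CardinalsPreserved.{0, 0} P ∧ p ∈ PhiHolds P n Y) ∧
    (∀ (Y : ℕ → Type) [∀ i, LinearOrder (Y i)], PhiFor n Y → Set.encard specPlus = n) ∧
    (∀ (Y : ℕ → Type) [∀ i, LinearOrder (Y i)] (u : Unit),
      u ∈ PhiHolds Unit n Y ↔ PhiFor n Y) := by
  refine ⟨?_, fun Y _ h => encard_specPlus h, fun Y _ u => triv_PhiHolds⟩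
  obtain ⟨P, hP, h1, h2⟩ := exists_forcing n hn
  exact ⟨YY, inferInstance, P, hP, h1, h2⟩

end Pool.Agent.Results.MP_0e7365_lc.FiniteSpectrum
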